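import Mathlib

/-!
# MP_b29b59_lc : a countably categorical weakly o-minimal structure with a convex set `U`
such that the expansion by `U` is not countably categorical

Interface. The structure is `(M, <, E, d)`: `E` is a convex equivalence relation, and `d` is an
ultrametric on every class of `E` with values in `M` itself, strictly to the left of the class.

Table of pieces: `h520_pieces_wo (piece, title, status, seat, at, note)`. Everything below marked
`S_XXX` is a piece; put your proof in `Pool/Agent/Run7/<you>/WO/XXX.lean` as `theorem xxx : S_XXX`.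
All statements may be used by every other piece (import this file, take the statement as a hypothesis
or import the file of its owner).
-/

set_option autoImplicit false

namespace Run7.h520.WO
open FirstOrder FirstOrder.Language

/-- The universal axioms. -/
structure Ax {M : Type} [LinearOrder M] (E : M → M → Prop) (d : M → M → M) : Prop where
  rf : ∀ x, E x x
  sm : ∀ x y, E x y → E y x
  tr : ∀ x y z, E x y → E y z → E x z
  /-- the classes are convex -/
  cv : ∀ x y z, x < y → y < z → E x z → E x y
  /-- symmetry -/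
  ds : ∀ x y, E x y → d x y = d y x
  /-- the values are strictly to the left of the class -/
  dl : ∀ x y, E x y → x ≠ y → d x y < x ∧ ¬ E (d x y) x
  /-- ultrametric, convex -/
  dm : ∀ x y z, x < y → y < z → E x z → d x z = max (d x y) (d y z)
  /-- the convention outside of the classes and on the diagonal -/
  dj : ∀ x y, (¬ E x y ∨ x = y) → d x y = x

/-- The extension axioms. -/
structure Ext {M : Type} [LinearOrder M] (E : M → M → Prop) (d : M → M → M) : Prop where
  /-- a new class, immediately to the right of the class of `a` relative to `A` -/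
  r1 : ∀ (A : Finset M) (a : M), ∃ x, a < x ∧ ¬ E a x ∧
    ∀ c ∈ A, ¬ E c x ∧ (a < c → ¬ E a c → x < c)
  /-- a new class, immediately to the left -/
  l1 : ∀ (A : Finset M) (a : M), ∃ x, x < a ∧ ¬ E a x ∧
    ∀ c ∈ A, ¬ E c x ∧ (c < a → ¬ E a c → c < x)
  /-- a new point at distance `y` from `a`, on the right -/
  r2 : ∀ (A : Finset M) (a y : M), y < a → ¬ E y a → ∃ x, E a x ∧ a < x ∧ d a x = y ∧
    ∀ c ∈ A, E a c → a < c → d a c = y → x < c ∧ d x c = y
  /-- on the left -/
  l2 : ∀ (A : Finset M) (a y : M), y < a → ¬ E y a → ∃ x, E a x ∧ x < a ∧ d a x = y ∧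
    ∀ c ∈ A, E a c → c < a → d a c = y → c < x ∧ d x c = y

/-! ## Existence -/

/-- A structure on `ℕ`; only the points below some `n` matter. -/
structure St where
  lt : ℕ → ℕ → Prop
  E : ℕ → ℕ → Prop
  d : ℕ → ℕ → ℕ

/-- `S.mx x y z w`: `x` is the maximum of `y` and `z` for the order `S.lt`. -/
def St.mx (S : St) (x y z : ℕ) : Prop := (x = y ∧ (z = y ∨ S.lt z y)) ∨ (x = z ∧ (y = z ∨ S.lt y z))

/-- The axioms, for the points below `n`. -/
structure Ok (S : St) (n : ℕ) : Prop where
  irr : ∀ x < n, ¬ S.lt x x
  tra : ∀ x < n, ∀ y < n, ∀ z < n, S.lt x y → S.lt y z → S.lt x z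
  tot : ∀ x < n, ∀ y < n, S.lt x y ∨ x = y ∨ S.lt y x
  rf : ∀ x < n, S.E x x
  sm : ∀ x < n, ∀ y < n, S.E x y → S.E y x
  tr : ∀ x < n, ∀ y < n, ∀ z < n, S.E x y → S.E y z → S.E x z
  cv : ∀ x < n, ∀ y < n, ∀ z < n, S.lt x y → S.lt y z → S.E x z → S.E x y
  dn : ∀ x < n, ∀ y < n, S.d x y < n
  ds : ∀ x < n, ∀ y < n, S.E x y → S.d x y = S.d y x
  dl : ∀ x < n, ∀ y < n, S.E x y → x ≠ y → S.lt (S.d x y) x ∧ ¬ S.E (S.d x y) x
  dm : ∀ x < n, ∀ y < n, ∀ z < n, S.lt x y → S.lt y z → S.E x z →
    S.mx (S.d x z) (S.d x y) (S.d y z)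
  dj : ∀ x < n, ∀ y < n, (¬ S.E x y ∨ x = y) → S.d x y = x

/-- `S'` agrees with `S` below `n`. -/
def Agr (S S' : St) (n : ℕ) : Prop :=
  ∀ x < n, ∀ y < n, (S'.lt x y ↔ S.lt x y) ∧ (S'.E x y ↔ S.E x y) ∧ S'.d x y = S.d x y

/-- One point in a new class (the new point is `n`). Proof: `E n i` and `E i n` false for `i < n`,
`d n i = n`, `d i n = i`; right: `i < n` iff `i < a` or `i E a`; left: `i < n` iff `i < a` and not
`i E a`. -/
def S_G1 : Prop := ∀ (S : St) (n : ℕ), Ok S n → ∀ a < n,
  (∃ S', Ok S' (n + 1) ∧ Agr S S' n ∧ S'.lt a n ∧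
    ∀ c < n, ¬ S'.E c n ∧ (S.lt a c → ¬ S.E a c → S'.lt n c)) ∧
  (∃ S', Ok S' (n + 1) ∧ Agr S S' n ∧ S'.lt n a ∧
    ∀ c < n, ¬ S'.E c n ∧ (S.lt c a → ¬ S.E a c → S'.lt c n))

/-- One point in the class of `a`. Proof: `E i n` iff `E i a`. Distance: `d n a = d a n = y`, and
`d n i = d i n = max (d i a) y` for `i E a`, `i ≠ a` (maximum for `S.lt`). Order, right: `i < n` iff
[(`i = a`) or (`i E a` and `d i a < y`) or (`i < a`)]; left: `n < i` iff [(`i = a`) or
(`i E a` and `d i a < y`) or (`a < i`)]. Let `B` be the set of `i` with `i = a` or (`i E a` and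
`d i a < y`); it is convex (by `dm`), which gives that the new order is linear. `dm` for triples with
the new point `n`, right case, all points in the class of `a`:
(i) `c < e < n`: `max (d c a) y = max (d c e) (max (d e a) y)`: if `e ≤ a` use `dm c e a`; if `a < e`
then `e ∈ B`, `d e a < y`, use `dm c a e` or `dm a c e`.
(ii) `c < n < e`: `e ∉ B`, `e > a`, `d e a ≥ y`; if `c < a` use `dm c a e`; if `c > a`, `c ∈ B` and
`d a e = max (d a c) (d c e)`, `d a c < y ≤ d a e`, so `d c e = d a e`.
(iii) `n < c < e`: `a < c < e`, use `dm a c e`.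
The left case is the mirror image (the axioms used are invariant under reversing the order inside a
class). -/
def S_G2 : Prop := ∀ (S : St) (n : ℕ), Ok S n → ∀ a < n, ∀ y < n, S.lt y a → ¬ S.E y a →
  (∃ S', Ok S' (n + 1) ∧ Agr S S' n ∧ S'.E a n ∧ S'.lt a n ∧ S'.d a n = y ∧
    ∀ c < n, S.E a c → S.lt a c → S.d a c = y → S'.lt n c ∧ S'.d n c = y) ∧
  (∃ S', Ok S' (n + 1) ∧ Agr S S' n ∧ S'.E a n ∧ S'.lt n a ∧ S'.d a n = y ∧
    ∀ c < n, S.E a c → S.lt c a → S.d a c = y → S'.lt c n ∧ S'.d n c = y)

/-- The generic structure exists. Proof from `S_G1`, `S_G2`: start with one point (`0`); enumerate the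
problems (side, kind, a, y), each one infinitely often (for instance `Nat.unpair`); at stage `n ≥ 1`
add the point `n` solving the problem number `n` if it makes sense (`a, y < n`, `y < a`, not `y E a`),
and otherwise some point (`S_G1` with `a = 0`). The limit on `ℕ`: `lt i j` iff `S_N.lt i j` for
(any) `N > i, j`. `M := ℕ` with another order: use a type synonym. -/
def S_GEN : Prop := S_G1 → S_G2 →
  ∃ (M : Type) (_ : LinearOrder M) (E : M → M → Prop) (d : M → M → M),
    Countable M ∧ Nonempty M ∧ Ax E d ∧ Ext E d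

/-! ## Back and forth -/

/-- Finite partial isomorphisms between sets closed under `d`, as relations. (The condition on `<`
implies that the relation is a bijection: `x = y` iff not `x < y` and not `y < x`.) -/
structure PI {M : Type} [LinearOrder M] (E : M → M → Prop) (d : M → M → M) (R : M → M → Prop) :
    Prop where
  fin : {p : M × M | R p.1 p.2}.Finite
  lt : ∀ x x' y y', R x x' → R y y' → (x < y ↔ x' < y')
  eq : ∀ x x' y y', R x x' → R y y' → (E x y ↔ E x' y')
  dd : ∀ x x' y y', R x x' → R y y' → R (d x y) (d x' y')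

/-- Two tuples correspond under a partial isomorphism. -/
def Sim {M : Type} [LinearOrder M] (E : M → M → Prop) (d : M → M → M) {α : Type} (s t : α → M) :
    Prop :=
  ∃ R, PI E d R ∧ ∀ i, R (s i) (t i)

/-- Nearest point. `x`, `a`, `c` in one class, different, `d a x ≤ d c x`. Then
`d c x = max (d c a) (d a x)`; if `d c a < d a x` then `a`, `c` are on the same side of `x`; if
`d a x < d c a` then `x`, `a` are on the same side of `c`. -/
def S_NEAR : Prop := ∀ (M : Type) [LinearOrder M] (E : M → M → Prop) (d : M → M → M), Ax E d →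
  ∀ x a c : M, E a x → E c x → a ≠ x → c ≠ x → a ≠ c →
    ((d c x ≤ max (d c a) (d a x)) ∧
    (d c a < d a x → (c < x ↔ a < x)) ∧
    (d a x < d c a → (c < x ↔ c < a)) ∧
    (d c a ≠ d a x → d c x = max (d c a) (d a x)) ∧
    (d a x ≤ d c x → d c x = max (d c a) (d a x)))

/-- Induction principle: `A` finite. (Proof: induction on the number of `c ∈ A` with `c < x` or `c E x`;
for `y = d a x`, with `a` in `A`, `a E x`, this number is smaller than for `x`: `c < y` or `c E y` imply
`c < x` and not `c E x`, and `a` counts for `x`.) -/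
def S_IND : Prop := ∀ (M : Type) [LinearOrder M] (E : M → M → Prop) (d : M → M → M), Ax E d →
  ∀ (A : Finset M) (P : M → Prop), (∀ x ∈ A, P x) → (∀ x, x ∉ A → (∀ c ∈ A, ¬ E c x) → P x) →
    (∀ x, x ∉ A → ∀ a ∈ A, E a x → (∀ c ∈ A, E c x → d a x ≤ d c x) → P (d a x) → P x) →
    ∀ x, P x

/-- Closures are finite and bounded. Proof: it is enough to add one point `x` to a closed set `B`; claim:
there is a closed `B' ⊇ B ∪ {x}` with `card B' ≤ card B + L(x) + 1`, all the points of `B'` which
are not in `B` are `x` or strictly to the left of the class of `x`,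
`L(x)` the number of `c ∈ B` with `c < x` or `c E x`. If `x ∈ B`: `B' = B`. If `x ∉ B`, no point of
`B` in the class of `x`: `B' = B ∪ {x}`. Otherwise take `a ∈ B`, `a E x` with `y = d a x` minimal; then
`L(y) < L(x)`; take the closed set for `y`, and add `x` to it (`S_NEAR`: `d c x = max (d c a) y` for
`c ∈ B`, `c E x`). So `b(n+1) = 2 b(n) + 1` works. -/
def S_CLOSE : Prop := ∀ (M : Type) [LinearOrder M] (E : M → M → Prop) (d : M → M → M), Ax E d →
  ∀ n : ℕ, ∃ b : ℕ, ∀ A : Finset M, A.card ≤ n → ∃ B : Finset M, A ⊆ B ∧ B.card ≤ b ∧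
    ∀ x ∈ B, ∀ y ∈ B, d x y ∈ B

/-- Restriction of partial isomorphisms (control of the new points). `R₁` is the set of all
`(c, c') ∈ R` with: `R₀ c c'`, or `(c, c') = (y, y')`, or `c < y`, not `c E y`, `c' < y'`,
not `c' E y'`. It is closed under `d` by `dl`, `dj` and convexity. -/
def S_RES : Prop := ∀ (M : Type) [LinearOrder M] (E : M → M → Prop) (d : M → M → M), Ax E d →
  ∀ R₀ R : M → M → Prop, PI E d R₀ → PI E d R → (∀ x x', R₀ x x' → R x x') → ∀ y y', R y y' →
    ∃ R₁ : M → M → Prop, PI E d R₁ ∧ (∀ x x', R₀ x x' → R₁ x x') ∧ R₁ y y' ∧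
      ∀ c c', R₁ c c' → R₀ c c' ∨ (c = y ∧ c' = y') ∨ (c < y ∧ ¬ E c y ∧ c' < y' ∧ ¬ E c' y')

/-- One step of back and forth. Proof. `A` := domain of `R`, finite. Induction `S_IND` over `A` for the
statement: for every `x` there are `x'` and a partial isomorphism `R'` containing `R` and `(x, x')`.
`x ∈ A`: trivial. No point of `A` in the class of `x`: if `A` is empty `x' = x`; if some point of `A`
is less than `x`, take the largest one `a` and `x'` from `r1` for `a'` and the range; otherwise
the smallest point of `A` and `l1`. `R' = R ∪ {(x, x')}`. Last case: `a₀` in `A` and in the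
class of `x` with `y = d a₀ x` minimal, and (by induction and `S_RES`) `R₁ ⊇ R` with `R₁ y y'`,
whose new points are `≤ y`, hence strictly to the left of the class of `x`. Let
`N = {c ∈ A : c E x, d c x = y}`. If `N` has points `< x` let `a` be the largest of them and get `x'`
from `r2` for `a'`, `y'` and the range of `R₁`. Then `R' = R₁ ∪ {(x, x')}`. Order: `c ∈ A`:
`c` not in the class: `c < x` iff `c < a` iff `c' < a'` iff `c' < x'`; `d c a < y`: `c < x`, `c' < x'`
(`S_NEAR`); `d c a > y`: `c < x` iff `c < a`, same for `c'`; `d c a = y`: then `c ∈ N`, and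
`c < a` gives `c < x`, `c' < x'`, while `c > a` gives `c > x` by the choice of `a` and `x' < c'` by `r2`.
Distances: `d c x = max (d c a) y` by `S_NEAR` (fifth item), and `d c' x' = max (d c' a') y'`: fourth
item if `d c' a' ≠ y'`; if `d c' a' = y'`: for `c' < a'` by `dm`, for `c' > a'` by `r2`. Otherwise all
the points of `N` are `> x`: the smallest one and `l2`. -/
def S_BF : Prop := ∀ (M : Type) [LinearOrder M] (E : M → M → Prop) (d : M → M → M), Ax E d → Ext E d →
  ∀ R : M → M → Prop, PI E d R → ∀ x : M, ∃ (R' : M → M → Prop) (x' : M), PI E d R' ∧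
    (∀ c c', R c c' → R' c c') ∧ R' x x'

/-- Convexity of the types over a closed set. Proof. Write `x ~ x''` if there is a partial isomorphism
containing `id_A` and `(x, x'')`. By `S_IND` over `A`, for the statement `P x`: for all `x'`, `x''` with
`x < x' < x''` or `x'' < x' < x`, `x ~ x''` implies `x ~ x'`.
`x ∈ A`: then `x = x''`, impossible. No point of `A` in the class of `x`: the same for `x''`, the same
cut of `A`, hence also for `x'` (convexity), and `id_A ∪ {(x, x')}` works. Last case: `a ∈ A` with
`a E x`, `y = d a x` minimal. Say `R` is the partial isomorphism with `R x x''`; so `a E x''`,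
`y'' = d a x''` is minimal too (`R` preserves `<`), `R y y''`, so `y ~ y''`, and
`x, x', x''` are in the same class and the same cut of `A`. Let `y' = d a x'`. Then `y'` is between `y`
and `y''` (by `dm`: if `a < x < x' < x''` then `y ≤ y' ≤ y''` and so on, four cases). So `y ~ y'`
(`P y` if it is strictly between; `y ~ y''`; or `y ~ y` by `S_CLOSE`: the identity of a closed set).
By `S_RES` there is `R₁ ⊇ id_A` with `R₁ y y'` and all the other points `(c, c')` of `R₁` strictly to
the left of the classes of `y`, `y'`. `R₁ ∪ {(x, x')}` works: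
it remains to see that `d c x' = max (d c a) y'` for `c ∈ A`, `c E a`, `c ≠ a` (and the same for `x`,
by `S_NEAR`). Case `a < x, x', x''`, say `x < x' < x''` (the case `x'' < x' < x` is the same with `x`
and `x''` exchanged): if `c < a`: `dm`. If `a < c < x`: `d a c ≤ y`,
`d c x = y` (`y ≤ d c x` and `dm`), `d c x' ≥ d c x = y`, and `y' = max (d a c) (d c x')` gives
`d c x' = y'`. If `c > x''`: `d c x' ≥ d c x'' ≥ y'' ≥ y'` and
`d a c = max y' (d x' c) = d x' c`. Case `a > x, x', x''`: mirror image. -/
def S_CONV : Prop := ∀ (M : Type) [LinearOrder M] (E : M → M → Prop) (d : M → M → M), Ax E d →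
  ∀ (A : Finset M), (∀ x ∈ A, ∀ y ∈ A, d x y ∈ A) → ∀ x x' x'' : M,
    (x < x' ∧ x' < x'') ∨ (x'' < x' ∧ x' < x) →
    (∃ R, PI E d R ∧ (∀ c ∈ A, R c c) ∧ R x x'') → ∃ R, PI E d R ∧ (∀ c ∈ A, R c c) ∧ R x x'

/-- Finitely many types of tuples (from `S_CLOSE`: a tuple is contained in a closed set of at most
`b` elements; the isomorphism type of this closed set with the marked tuple is an element of a
finite type, for instance the tables of `<`, `E`, `d` on `Fin m`, `m ≤ b`, and the positions of the
points of the tuple). -/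
def S_FINT : Prop := ∀ (M : Type) [LinearOrder M] (E : M → M → Prop) (d : M → M → M), Ax E d →
  ∀ (α : Type) [Finite α], ∃ F : Set (α → M), F.Finite ∧ ∀ t, ∃ s ∈ F, Sim E d s t

/-! ## Model theory -/

/-- Equality of types over the empty set. -/
def STp (L : FirstOrder.Language.{0, 0}) {N N' : Type} [L.Structure N] [L.Structure N']
    {α : Type} (s : α → N) (t : α → N') : Prop :=
  ∀ φ : L.Formula α, φ.Realize s ↔ φ.Realize t

/-- Ryll-Nardzewski, the easy direction, in general: finitely many types of `n`-tuples for every `n`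
imply countable categoricity. (Proof: for `s ∈ F` a conjunction `ρ_s` of formulas separating `s` from
the other types of `F` isolates the type of `s` in all models; then adapt
`Pool/Agent/Run7/h704/LW/{MOD1, MOD2}.lean`, where this is done for a special language.) -/
def S_RN : Prop := ∀ (L : FirstOrder.Language.{0, 0}) (M : Type) [L.Structure M] [Nonempty M],
  (∀ n : ℕ, ∃ F : Set (Fin n → M), F.Finite ∧ ∀ t : Fin n → M, ∃ s ∈ F, STp L s t) →
  Cardinal.Categorical (Cardinal.aleph0 : Cardinal.{0}) (L.completeTheory M)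

/-- Failure of countable categoricity: a decreasing sequence of nonempty definable sets with empty
intersection. (Proof: the intersection is not empty in an ultrapower or by compactness, take a
countable elementary substructure containing a point of it; it is not isomorphic to `M`.) -/
def S_OMIT : Prop := ∀ (L : FirstOrder.Language.{0, 0}) (M : Type) [L.Structure M] [Infinite M]
  [Countable M], L.card ≤ Cardinal.aleph0 →
  ∀ ψ : ℕ → L.Formula (Fin 1), (∀ k, ∃ v : Fin 1 → M, (ψ k).Realize v) →
    (∀ k, ∀ v : Fin 1 → M, (ψ (k + 1)).Realize v → (ψ k).Realize v) →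
    (∀ v : Fin 1 → M, ∃ k, ¬ (ψ k).Realize v) →
    ¬ Cardinal.Categorical (Cardinal.aleph0 : Cardinal.{0}) (L.completeTheory M)

/-- The relation symbols: `<`, `E` and the graph of `d`. -/
inductive Rel : ℕ → Type
  | lt : Rel 2
  | eq : Rel 2
  | dd : Rel 3

/-- The language of the structure. -/
def L3 : FirstOrder.Language.{0, 0} := ⟨fun _ => Empty, Rel⟩

/-- The structure. -/
@[reducible] def str {M : Type} [LinearOrder M] (E : M → M → Prop) (d : M → M → M) : L3.Structure M where
  funMap := fun {_} f => f.elim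
  RelMap := fun {_} r => match r with
    | Rel.lt => fun v => v 0 < v 1
    | Rel.eq => fun v => E (v 0) (v 1)
    | Rel.dd => fun v => d (v 0) (v 1) = v 2

/-- One unary predicate symbol. -/
inductive URel : ℕ → Type
  | u : URel 1

/-- The language with one unary predicate symbol. -/
def LU : FirstOrder.Language.{0, 0} := ⟨fun _ => Empty, URel⟩

/-- The interpretation of the unary predicate symbol. -/
@[reducible] def ustr {M : Type} (U : Set M) : LU.Structure M where
  funMap := fun {_} f => f.elim
  RelMap := fun {_} r => match r with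
    | URel.u => fun v => v 0 ∈ U

/-- The structure in the language with `U`. -/
@[reducible] def strU {M : Type} [LinearOrder M] (E : M → M → Prop) (d : M → M → M) (U : Set M) :
    (L3.sum LU).Structure M :=
  letI := str E d
  letI := ustr U
  inferInstance

/-- Similar tuples have the same type (induction on formulas, `S_BF` for the quantifiers; compare
`Geo.inv_aux` in `Pool/Agent/Run7/h704/LW/MOD1.lean`). -/
def S_INV : Prop := S_BF → ∀ (M : Type) [LinearOrder M] (E : M → M → Prop) (d : M → M → M), Ax E d →
  Ext E d → ∀ (α : Type) [Finite α] (s t : α → M), Sim E d s t → @STp L3 M M (str E d) (str E d) α s t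

/-- Weak o-minimality (from `S_CONV`, `S_CLOSE`, `S_FINT`, `S_INV`): a set definable with parameters uses
finitely many of them, contained in a closed finite `A`; it is a union of classes of `~` over `A`, which
are convex, and there are finitely many of them. -/
def S_WOM : Prop := S_CONV → S_CLOSE → S_FINT → S_INV → S_BF →
  ∀ (M : Type) [LinearOrder M] (E : M → M → Prop) (d : M → M → M), Ax E d → Ext E d →
    letI := str E d
    ∀ s : Set M, Set.Definable₁ Set.univ L3 s →
      ∃ C : Set (Set M), C.Finite ∧ (∀ c ∈ C, c.OrdConnected) ∧ s = ⋃₀ C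

/-- The sets derived from `U`. -/
def V {M : Type} [LinearOrder M] (E : M → M → Prop) (d : M → M → M) (U : Set M) : ℕ → Set M
  | 0 => U
  | k + 1 => {v | ∀ x ∈ V E d U k, ∀ y, y ∉ V E d U k → E x y → v < d x y}

/-- The set `U`. Proof. Choose `x k`, `z k` in `M` with `x 0 > z 0 > x 1 > z 1 > ...` in different
classes, such that every point of `M` is `>` and not `E` to some `x k` (`l1`; `M` is countable).
For `k ≤ m` define `y m k` by: `y m m` is a point `> x m`, in the class of `x m`, at distance `z m`
from `x m`; for `k < m`, `y m k > x k` is in the class of `x k` at distance `y m (k+1)` from `x k`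
(`r2`; recursion on `m - k`). Then `y (m+1) k < y m k` (downward induction on `k`: the distances from
`x k` satisfy this, `d (x k) (y (m+1) k) < d (x k) (y m k)`, for `k = m` because `y (m+1) (m+1)` is in
the class of `x (m+1)`, to the left of `z m`). `U = {v : ∀ m, v < y m 0}`. Then
`V k = {v : ∀ m ≥ k, v < y m k}` by induction: let `V k` be so. If `x ∈ V k`, `y ∉ V k`, `x E y`, then
`x < y m k ≤ y` for all large `m`, so `x` is in the class of `x k` and `d x y ≥ d x (y m k)`. If
`x ≤ x k` then this is `≥ d (x k) (y m k) = y m (k+1)`. If `x > x k` then `d (x k) x ≤ d (x k) (y m' k)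
= y m' (k+1) < y m (k+1)` for `m' > m`, and `dm (x k) x (y m k)` gives `d x (y m k) = y m (k+1)`. Hence
`v < y m (k+1)` for all `m ≥ k + 1` implies `v < d x y`. Conversely use the pairs `(x k, y m k)`.
`x k ∈ V k`; `V (k+1) ⊆ V k` because the class of `x (k+1)` is to the left of that of `x k`; no point is
in all `V k` because the classes of the `x k` are coinitial. -/
def S_ARR : Prop := ∀ (M : Type) [LinearOrder M] (E : M → M → Prop) (d : M → M → M), Countable M →
  Nonempty M → Ax E d → Ext E d → ∃ U : Set M, (∀ x y, y ∈ U → x < y → x ∈ U) ∧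
    (∀ k, (V E d U k).Nonempty) ∧ (∀ k, V E d U (k + 1) ⊆ V E d U k) ∧
    ∀ v, ∃ k, v ∉ V E d U k

/-- The sets `V k` are defined by formulas. -/
def S_FORM : Prop := ∀ (M : Type) [LinearOrder M] (E : M → M → Prop) (d : M → M → M) (U : Set M),
  letI := strU E d U
  ∃ ψ : ℕ → (L3.sum LU).Formula (Fin 1), ∀ (k : ℕ) (v : Fin 1 → M),
    (ψ k).Realize v ↔ v 0 ∈ V E d U k

/-- The answer. -/
def Answer : Prop :=
  ∃ (L : FirstOrder.Language.{0, 0}) (M : Type) (_ : LinearOrder M) (_ : L.Structure M),
    L.card ≤ Cardinal.aleph0 ∧ Cardinal.mk M = Cardinal.aleph0 ∧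
    (∃ r : L.Relations 2, ∀ v : Fin 2 → M, Structure.RelMap r v ↔ v 0 < v 1) ∧
    Cardinal.Categorical (Cardinal.aleph0 : Cardinal.{0}) (L.completeTheory M) ∧
    (∀ s : Set M, Set.Definable₁ Set.univ L s →
      ∃ C : Set (Set M), C.Finite ∧ (∀ c ∈ C, c.OrdConnected) ∧ s = ⋃₀ C) ∧
    ∃ U : Set M, U.OrdConnected ∧
      letI := ustr U
      ¬ Cardinal.Categorical (Cardinal.aleph0 : Cardinal.{0}) ((L.sum LU).completeTheory M)

/-- Assembly. -/
def S_MAIN : Prop := S_G1 → S_G2 → S_GEN → S_NEAR → S_IND → S_CLOSE → S_RES → S_BF → S_CONV →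
  S_FINT → S_RN → S_OMIT → S_INV → S_WOM → S_ARR → S_FORM → Answer

end Run7.h520.WO
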