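import Pool.Agent.Run7.h520.WO.I

/-! Formulas for the sets `V k`. -/

set_option autoImplicit false

namespace Run7.h520.WO
open FirstOrder FirstOrder.Language

/-- The formulas. -/
noncomputable def psi : ℕ → (L3.sum LU).Formula (Fin 1)
  | 0 => Relations.formula (Sum.inr URel.u : (L3.sum LU).Relations 1) ![Term.var 0]
  | k + 1 => Formula.iAlls (Fin 3) (α := Fin 1)
      (((psi k).relabel (fun _ => Sum.inr 0)).imp
        (((psi k).relabel (fun _ => Sum.inr 1)).not.imp
          ((Relations.formula (Sum.inl Rel.eq : (L3.sum LU).Relations 2)
            ![Term.var (Sum.inr 0), Term.var (Sum.inr 1)]).imp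
            ((Relations.formula (Sum.inl Rel.dd : (L3.sum LU).Relations 3)
              ![Term.var (Sum.inr 0), Term.var (Sum.inr 1), Term.var (Sum.inr 2)]).imp
              (Relations.formula (Sum.inl Rel.lt : (L3.sum LU).Relations 2)
                ![Term.var (Sum.inl 0), Term.var (Sum.inr 2)])))))

theorem form : S_FORM := by
  intro M _ E d U
  let := strU E d U
  refine ⟨psi, fun k => ?_⟩
  induction k with
  | zero =>
    intro v
    rw [psi, Formula.realize_rel]
    rfl
  | succ k ih =>
    intro v
    rw [psi, Formula.realize_iAlls]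
    have e : ∀ i : Fin 3 → M, (Formula.Realize (((psi k).relabel (fun _ => Sum.inr 0)).imp
        (((psi k).relabel (fun _ => Sum.inr 1)).not.imp
          ((Relations.formula (Sum.inl Rel.eq : (L3.sum LU).Relations 2)
            ![Term.var (Sum.inr 0), Term.var (Sum.inr 1)]).imp
            ((Relations.formula (Sum.inl Rel.dd : (L3.sum LU).Relations 3)
              ![Term.var (Sum.inr 0), Term.var (Sum.inr 1), Term.var (Sum.inr 2)]).imp
              (Relations.formula (Sum.inl Rel.lt : (L3.sum LU).Relations 2)
                ![Term.var (Sum.inl 0), Term.var (Sum.inr 2)]))))) (Sum.elim v i)) ↔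
        (i 0 ∈ V E d U k → ¬ i 1 ∈ V E d U k → E (i 0) (i 1) → d (i 0) (i 1) = i 2 →
          v 0 < i 2) := by
      intro i
      rw [Formula.realize_imp, Formula.realize_imp, Formula.realize_imp, Formula.realize_imp,
        Formula.realize_not, Formula.realize_relabel, Formula.realize_relabel, ih, ih,
        Formula.realize_rel, Formula.realize_rel, Formula.realize_rel]
      rfl
    simp only [e]
    constructor
    · intro h x hx y hy hxy
      exact h ![x, y, d x y] hx hy hxy rfl
    · intro h i h0 h1 h2 h3
      rw [← h3]
      exact h (i 0) h0 (i 1) h1 h2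

end Run7.h520.WO
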