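import Pool.Agent.Run7.h520.WO.MAIN
import Pool.Agent.Run7.h520.WO.FORM
import Pool.Agent.Run7.h514.WO.ARR
import Pool.Agent.Run7.h416.WO.G
import Pool.Agent.Run7.h416.WO.BF
import Pool.Agent.Run7.h480.WO.NEAR
import Pool.Agent.Run7.h480.WO.IND
import Pool.Agent.Run7.h480.WO.CONV
import Pool.Agent.Run7.h104.WO.FINT
import Pool.Agent.Run7.h104.WO.GEN
import Pool.Agent.Run7.h574.WO.INV
import Pool.Agent.Run7.h574.WO.WOM
import Pool.Agent.Run7.h781.WO.RN

/-! The answer. -/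

set_option autoImplicit false

namespace Run7.h520.WO

theorem answer : Answer :=
  main Run7.h416.WO.g1 Run7.h416.WO.g2 Run7.h104.WO.gen Run7.h480.WO.near Run7.h480.WO.ind
    Run7.h480.WO.close Run7.h416.WO.res (Run7.h416.WO.bf Run7.h480.WO.near Run7.h480.WO.ind)
    (Run7.h480.WO.conv Run7.h416.WO.res) (Run7.h104.WO.fint Run7.h480.WO.close)
    Run7.h781.WO.rn Run7.h781.WO.t_omit Run7.h574.WO.inv Run7.h574.WO.wom
    Run7.h514.WO.arr form

end Run7.h520.WO
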