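import Pool.Agent.Run7.h520.WO.I

/-! Assembly. -/

set_option autoImplicit false

namespace Run7.h520.WO
open FirstOrder FirstOrder.Language

theorem card_L3 : L3.card ≤ Cardinal.aleph0 := by
  have h1 : Countable ((l : ℕ) × L3.Functions l) := by
    have : ∀ l, IsEmpty (L3.Functions l) := fun l => inferInstanceAs (IsEmpty Empty)
    infer_instance
  have h2 : Countable ((l : ℕ) × L3.Relations l) := by
    have : ∀ l, Countable (L3.Relations l) := by
      intro l
      have : Finite (L3.Relations l) := by
        have : Function.Injective (fun r : Rel l => match r with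
          | Rel.lt => (0 : Fin 3) | Rel.eq => 1 | Rel.dd => 2) := by
          intro r s h
          cases r <;> cases s <;> simp_all
        exact Finite.of_injective _ this
      infer_instance
    infer_instance
  have h3 : Countable L3.Symbols := by
    unfold Language.Symbols
    infer_instance
  exact Cardinal.mk_le_aleph0_iff.2 h3

theorem card_LU : LU.card ≤ Cardinal.aleph0 := by
  have h1 : Countable ((l : ℕ) × LU.Functions l) := by
    have : ∀ l, IsEmpty (LU.Functions l) := fun l => inferInstanceAs (IsEmpty Empty)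
    infer_instance
  have h2 : Countable ((l : ℕ) × LU.Relations l) := by
    have : ∀ l, Countable (LU.Relations l) := by
      intro l
      have : Subsingleton (LU.Relations l) := by
        constructor
        intro r s
        change URel l at r s
        cases r; cases s; rfl
      infer_instance
    infer_instance
  have h3 : Countable LU.Symbols := by
    unfold Language.Symbols
    infer_instance
  exact Cardinal.mk_le_aleph0_iff.2 h3

theorem card_LS : (L3.sum LU).card ≤ Cardinal.aleph0 := by
  rw [Language.card_sum, Cardinal.lift_id, Cardinal.lift_id]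
  exact Cardinal.add_le_aleph0.2 ⟨card_L3, card_LU⟩

/-- the generic structure is infinite -/
theorem inf_of_ext {M : Type} [LinearOrder M] [Nonempty M] {E : M → M → Prop} {d : M → M → M}
    (h : Ext E d) : Infinite M := by
  have : NoMaxOrder M := ⟨fun a => by
    obtain ⟨x, hx, _⟩ := h.r1 ∅ a
    exact ⟨x, hx⟩⟩
  exact NoMaxOrder.infinite

theorem main : S_MAIN := by
  intro hG1 hG2 hGEN hNEAR hIND hCLOSE hRES hBF hCONV hFINT hRN hOMIT hINV hWOM hARR hFORM
  obtain ⟨M, iM, E, d, hc, hn, hA, hE⟩ := hGEN hG1 hG2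
  have hinf : Infinite M := inf_of_ext hE
  obtain ⟨U, hU1, hU2, hU3, hU4⟩ := hARR M E d hc hn hA hE
  refine ⟨L3, M, iM, str E d, card_L3, ?_, ⟨Rel.lt, fun v => Iff.rfl⟩, ?_, ?_, U, ?_, ?_⟩
  · exact Cardinal.mk_eq_aleph0 M
  · letI := str E d
    refine hRN L3 M ?_
    intro n
    obtain ⟨F, hF, hF2⟩ := hFINT M E d hA (Fin n)
    refine ⟨F, hF, fun t => ?_⟩
    obtain ⟨s, hs, hst⟩ := hF2 t
    exact ⟨s, hs, hINV hBF M E d hA hE (Fin n) s t hst⟩
  · exact hWOM hCONV hCLOSE hFINT hINV hBF M E d hA hE
  · refine ⟨fun x _ y hy z hz => ?_⟩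
    rcases lt_or_eq_of_le hz.2 with h | h
    · exact hU1 z y hy h
    · exact h ▸ hy
  · letI := str E d
    letI := ustr U
    obtain ⟨ψ, hψ⟩ := hFORM M E d U
    refine hOMIT (L3.sum LU) M card_LS ψ ?_ ?_ ?_
    · intro k
      obtain ⟨v, hv⟩ := hU2 k
      exact ⟨fun _ => v, (hψ k _).2 hv⟩
    · intro k v h
      exact (hψ k v).2 (hU3 k ((hψ (k + 1) v).1 h))
    · intro v
      obtain ⟨k, hk⟩ := hU4 (v 0)
      exact ⟨k, fun h => hk ((hψ k v).1 h)⟩

end Run7.h520.WO
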